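import Pool.Agent.Helper17.Rg.Goals

/-!
# PAD: a sum over a small finite set as a sum over `Fin s` (project RG)
-/

set_option autoImplicit false

namespace Pool.Agent.Helper89.Rg

open Pool.Agent.Helper17.Rg

theorem pad : Pad := by
  intro s
  induction s with
  | zero =>
    intro S N L hS _ _
    have hS0 : S = ∅ := Finset.card_eq_zero.1 (Nat.le_zero.1 hS)
    subst hS0
    exact ⟨Fin.elim0, Fin.elim0, fun t => t.elim0, fun t => t.elim0, fun F => by simp⟩
  | succ s ih =>
    intro S N L hS hNL hmem
    rcases S.eq_empty_or_nonempty with rfl | ⟨x, hx⟩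
    · obtain ⟨l, a, h1, h2, h3⟩ := ih ∅ N L (by simp) hNL (by simp)
      refine ⟨Fin.cons N l, Fin.cons 0 a, ?_, ?_, ?_⟩
      · intro t
        refine Fin.cases ?_ (fun t => ?_) t
        · exact ⟨le_refl N, hNL⟩
        · simpa using h1 t
      · intro t
        refine Fin.cases ?_ (fun t => ?_) t
        · left
          simp
        · simpa using h2 t
      · intro F
        rw [Fin.sum_univ_succ]
        simp only [Fin.cons_zero, Fin.cons_succ, Int.cast_zero, zero_mul, zero_add]
        exact h3 F
    · obtain ⟨l, a, h1, h2, h3⟩ := ih (S.erase x) N L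
        (by rw [Finset.card_erase_of_mem hx]; omega) hNL
        (fun k hk => hmem k (Finset.mem_of_mem_erase hk))
      refine ⟨Fin.cons x l, Fin.cons 1 a, ?_, ?_, ?_⟩
      · intro t
        refine Fin.cases ?_ (fun t => ?_) t
        · exact hmem x hx
        · simpa using h1 t
      · intro t
        refine Fin.cases ?_ (fun t => ?_) t
        · right
          simp
        · simpa using h2 t
      · intro F
        rw [Fin.sum_univ_succ]
        simp only [Fin.cons_zero, Fin.cons_succ, Int.cast_one, one_mul]
        rw [← h3 F, Finset.add_sum_erase S F hx]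

end Pool.Agent.Helper89.Rg
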